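import Pool.Agent.H36.S7.Ode
import Pool.Agent.H77.SN.Sec6

/-!
# Section 7: the curvature is neither positive nor negative
-/

set_option autoImplicit false
set_option linter.unusedSectionVars false
set_option linter.unusedVariables false

open scoped InnerProductSpace Topology ContDiff
open Set Filter

namespace Pool.Agent.H36.S7

open Pool.Agent.H91.GE hiding G1 G11 Nondeg Br exists_br cF smooth_cF Cfg mem_TSet_of_map
open Pool.Agent.H59.LV Pool.Agent.H59.ND Pool.Agent.H59.Zar Pool.Agent.H77.SN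

variable {E F : Type*} [NormedAddCommGroup E] [InnerProductSpace ℝ E] [FiniteDimensional ℝ E]
  [NormedAddCommGroup F] [InnerProductSpace ℝ F] [FiniteDimensional ℝ F]
  {S : Set E} {A : E × E → E} {K K₂ : NNReal} {Φ : ℝ → E × E → E × E} {n m : ℕ}

/-- The three quadratic functions of a Jacobi field. -/
noncomputable def fp (Φ : ℝ → E × E → E × E) (w k : E × E) (t : ℝ) : ℝ :=
  ⟪(fderiv ℝ (Φ t) w k).1, (fderiv ℝ (Φ t) w k).1⟫_ℝ

noncomputable def fq (Φ : ℝ → E × E → E × E) (w k : E × E) (t : ℝ) : ℝ :=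
  ⟪(fderiv ℝ (Φ t) w k).1, (fderiv ℝ (Φ t) w k).2⟫_ℝ

noncomputable def fr (A : E × E → E) (Φ : ℝ → E × E → E × E) (w k : E × E) (t : ℝ) : ℝ :=
  ⟪tanv A (Φ t w) (fderiv ℝ (Φ t) w k), tanv A (Φ t w) (fderiv ℝ (Φ t) w k)⟫_ℝ

/-- The Jacobi equation of constant curvature `κ` along the geodesic of `w`. -/
def CCw (A : E × E → E) (Φ : ℝ → E × E → E × E) (S : Set E) (w : E × E) (κ : ℝ) : Prop :=
  ∀ k ∈ ZT (UT S) w, ⟪w.2, k.1⟫_ℝ = 0 → ∀ t : ℝ,
    HasDerivAt (fq Φ w k) (fr A Φ w k t - κ * fp Φ w k t) t ∧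
    HasDerivAt (fr A Φ w k) (-(2 * κ * fq Φ w k t)) t

/-- Constant curvature along every geodesic. -/
def CC (A : E × E → E) (Φ : ℝ → E × E → E × E) (S : Set E) : Prop :=
  ∀ w ∈ UT S, ∃ κ : ℝ, CCw A Φ S w κ

theorem fderiv_flow_zero (h : GFlow F S A K K₂ Φ) (w k : E × E) : fderiv ℝ (Φ 0) w k = k := by
  have e1 : Φ 0 = id := funext h.flow.zero
  rw [e1, fderiv_id]; rfl

theorem pqr (h : GFlow F S A K K₂ Φ) {w k : E × E} {κ : ℝ} (hw : w ∈ UT S) (hc : CCw A Φ S w κ)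
    (hk : k ∈ ZT (UT S) w) (h0 : ⟪w.2, k.1⟫_ℝ = 0) :
    PQR κ (fp Φ w k) (fq Φ w k) (fr A Φ w k) where
  hp := by
    intro t
    have e1 : HasDerivAt (fun t => (fderiv ℝ (Φ t) w k).1) (fderiv ℝ (Φ t) w k).2 t :=
      (ContinuousLinearMap.fst ℝ E E).hasFDerivAt.comp_hasDerivAt t (hasDerivAt_jac h w k t)
    have e2 := e1.inner ℝ e1
    refine e2.congr_deriv ?_
    unfold fq
    rw [real_inner_comm (fderiv ℝ (Φ t) w k).1 (fderiv ℝ (Φ t) w k).2]
    ring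
  hq := fun t => (hc k hk h0 t).1
  hr := fun t => (hc k hk h0 t).2

theorem fp_nonneg (w k : E × E) (t : ℝ) : 0 ≤ fp Φ w k t := real_inner_self_nonneg

theorem fr_nonneg (w k : E × E) (t : ℝ) : 0 ≤ fr A Φ w k t := real_inner_self_nonneg

/-- A vector of `Y` perpendicular to the flow. -/
theorem exists_perp {w : E × E} (hw : 2 ≤ Module.finrank ℝ (YY Φ S w)) :
    ∃ k ∈ YY Φ S w, k ≠ 0 ∧ ⟪w.2, k.1⟫_ℝ = 0 :=
  Pool.Agent.H36.FO.exists_ker hw (((innerSL ℝ w.2).toLinearMap) ∘ₗ (LinearMap.fst ℝ E E))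

/-- The curvature is not positive at good points. -/
theorem not_pos (h : GFlow F S A K K₂ Φ) (hdim : Module.finrank ℝ E = Module.finrank ℝ F + n)
    (hn : 2 ≤ n) (hsec : Secure S) {w : E × E} (hw : w ∈ OO Φ S n) {κ : ℝ}
    (hc : CCw A Φ S w κ) : κ ≤ 0 := by
  by_contra hκ
  push Not at hκ
  have hU : w ∈ UT S := hw.1.1
  obtain ⟨k, hk, hk0, hkw⟩ := exists_perp (Φ := Φ) (S := S) (w := w) (by rw [hw.2]; exact hn)
  have hkU : k ∈ ZT (UT S) w := (retRel h hdim).Y_le hU hk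
  have hP := pqr h hU hc hkU hkw
  obtain ⟨htr, c, hcf⟩ := scal h hdim hn hsec hw
  have hk1 : k.1 ∈ ZT S w.1 := fst_mem_TS hU hkU
  have htan : tanv A w k ∈ ZT S w.1 := tan_part h hU hkU
  have hconf : tanv A w k = c • k.1 := by
    have e1 : tanv A w k - c • k.1 ∈ ZT S w.1 :=
      Submodule.sub_mem _ htan (Submodule.smul_mem _ _ hk1)
    have e2 : ⟪tanv A w k - c • k.1, tanv A w k - c • k.1⟫_ℝ = 0 := by
      rw [inner_sub_left, inner_tanv h hU hk1 e1, hcf k hk hkw _ e1, inner_smul_left]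
      simp
    exact sub_eq_zero.1 (inner_self_eq_zero.1 e2)
  have hq0 : fq Φ w k 0 = c * fp Φ w k 0 := by
    unfold fq fp
    rw [fderiv_flow_zero h, hcf k hk hkw _ hk1 |> fun e => (real_inner_comm _ _).trans e]
  have hr0 : fr A Φ w k 0 = c ^ 2 * fp Φ w k 0 := by
    unfold fr fp
    rw [fderiv_flow_zero h, h.flow.zero, hconf, inner_smul_left, inner_smul_right]
    simp only [conj_trivial]
    ring
  obtain ⟨t, ht⟩ := hP.pos hκ hq0 hr0
  have h1 : (fderiv ℝ (Φ t) w k).1 = 0 := inner_self_eq_zero.1 ht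
  have h2 : fderiv ℝ (Φ t) w k ∈ YY Φ S (Φ t w) := ((retRel h hdim).flow_Y hU t).2 hk
  have h3 := (scal h hdim hn hsec (OO_flow h hdim hw t)).1 _ h2 h1
  have h4 := (retRel h hdim).fderiv_inv t w k
  rw [h3, map_zero] at h4
  exact hk0 h4.symm

end Pool.Agent.H36.S7
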