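import Mathlib

/-!
# The squared length of a Jacobi field in constant curvature
-/

set_option autoImplicit false

open scoped Topology
open Set Filter

namespace Pool.Agent.H36.S7

/-- `p = |J|²`, `q = ⟪J, J'⟫`, `r = |J'|²` in constant curvature `κ`. -/
structure PQR (κ : ℝ) (p q r : ℝ → ℝ) : Prop where
  hp : ∀ t, HasDerivAt p (2 * q t) t
  hq : ∀ t, HasDerivAt q (r t - κ * p t) t
  hr : ∀ t, HasDerivAt r (-(2 * κ * q t)) t

theorem const_of_deriv {f : ℝ → ℝ} (h : ∀ t, HasDerivAt f 0 t) (a b : ℝ) : f a = f b :=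
  is_const_of_deriv_eq_zero (fun t => (h t).differentiableAt) (fun t => (h t).deriv) a b

/-- Curvature zero. -/
theorem PQR.zero {p q r : ℝ → ℝ} (h : PQR 0 p q r) (hp0 : p 0 = 0) (hq0 : q 0 = 0) (t : ℝ) :
    p t = t ^ 2 * r 0 := by
  have h1 : ∀ t, r t = r 0 := fun t => const_of_deriv (fun t => by simpa using h.hr t) t 0
  have h2 : ∀ t, q t = t * r 0 := by
    intro t
    have h3 : ∀ t, HasDerivAt (fun t => q t - t * r 0) 0 t := by
      intro t
      have e1 := (h.hq t).sub ((hasDerivAt_id t).mul_const (r 0))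
      have e2 : r t - 0 * p t - 1 * r 0 = 0 := by rw [h1 t]; ring
      rw [e2] at e1
      exact e1
    have h4 := const_of_deriv h3 t 0
    simp only [hq0, zero_mul, sub_zero] at h4
    linarith
  have h3 : ∀ t, HasDerivAt (fun t => p t - t ^ 2 * r 0) 0 t := by
    intro t
    have e1 := (h.hp t).sub ((hasDerivAt_pow 2 t).mul_const (r 0))
    have e2 : 2 * q t - ((2 : ℕ) : ℝ) * t ^ (2 - 1) * r 0 = 0 := by
      rw [h2 t]; norm_num; ring
    rw [e2] at e1
    exact e1
  have h4 := const_of_deriv h3 t 0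
  simp only [hp0] at h4
  nlinarith [h4]

/-- Positive curvature: `p` has a zero. -/
theorem PQR.pos {κ : ℝ} {p q r : ℝ → ℝ} (hκ : 0 < κ) (h : PQR κ p q r) {c : ℝ}
    (hq0 : q 0 = c * p 0) (hr0 : r 0 = c ^ 2 * p 0) : ∃ t, p t = 0 := by
  set k := Real.sqrt κ with hk
  have hk0 : 0 < k := Real.sqrt_pos.2 hκ
  have hkk : k * k = κ := Real.mul_self_sqrt hκ.le
  set x := c / k with hx
  set a := Real.pi / 2 + Real.arctan x with ha
  have hcos : Real.cos a = -Real.sin (Real.arctan x) := by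
    rw [ha, add_comm, Real.cos_add_pi_div_two]
  have hsin : Real.sin a = Real.cos (Real.arctan x) := by
    rw [ha, add_comm, Real.sin_add_pi_div_two]
  have htan : Real.sin (Real.arctan x) = x * Real.cos (Real.arctan x) := by
    have h1 := Real.tan_arctan x
    rw [Real.tan_eq_sin_div_cos, div_eq_iff (Real.cos_arctan_pos x).ne'] at h1
    exact h1
  set t₁ := a / k with ht₁
  -- the conserved quantity
  set D : ℝ → ℝ := fun t => Real.sin (k * (t - t₁)) ^ 2 * r t
    - 2 * k * (Real.sin (k * (t - t₁)) * Real.cos (k * (t - t₁)) * q t)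
    + k ^ 2 * (Real.cos (k * (t - t₁)) ^ 2 * p t) with hD
  have hDd : ∀ t, HasDerivAt D 0 t := by
    intro t
    have e0 : HasDerivAt (fun t => k * (t - t₁)) k t := by
      simpa using ((hasDerivAt_id t).sub_const t₁).const_mul k
    have es : HasDerivAt (fun t => Real.sin (k * (t - t₁))) (Real.cos (k * (t - t₁)) * k) t := e0.sin
    have ec : HasDerivAt (fun t => Real.cos (k * (t - t₁))) (-Real.sin (k * (t - t₁)) * k) t := e0.cos
    have e1 := (es.pow 2).mul (h.hr t)
    have e2 := (((es.mul ec).mul (h.hq t)).const_mul (2 * k))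
    have e3 := (((ec.pow 2).mul (h.hp t)).const_mul (k ^ 2))
    have e4 := (e1.sub e2).add e3
    refine e4.congr_deriv ?_
    simp only [Pi.mul_apply, Pi.pow_apply]
    rw [← hkk]
    push_cast
    ring
  refine ⟨t₁, ?_⟩
  have h1 := const_of_deriv hDd t₁ 0
  have h2 : D t₁ = k ^ 2 * p t₁ := by
    simp [hD]
  have h3 : D 0 = 0 := by
    have e1 : k * (0 - t₁) = -a := by
      rw [ht₁]; field_simp; ring
    simp only [hD]
    rw [e1, Real.sin_neg, Real.cos_neg, hq0, hr0, hsin, hcos, htan]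
    have e2 : k * x = c := by rw [hx]; field_simp
    rw [← e2]
    ring
  rw [h2, h3] at h1
  rcases mul_eq_zero.1 h1 with h4 | h4
  · exact absurd h4 (by positivity)
  · exact h4

/-- Nonpositive curvature: `q` is monotone. -/
theorem PQR.mono {κ : ℝ} {p q r : ℝ → ℝ} (hκ : κ ≤ 0) (h : PQR κ p q r) (hp : ∀ t, 0 ≤ p t)
    (hr : ∀ t, 0 ≤ r t) : Monotone q := by
  refine monotone_of_deriv_nonneg (fun t => (h.hq t).differentiableAt) fun t => ?_
  rw [(h.hq t).deriv]
  have := mul_nonneg (neg_nonneg.2 hκ) (hp t)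
  have := hr t
  linarith

/-- Negative curvature: `q` grows. -/
theorem PQR.lt {κ : ℝ} {p q r : ℝ → ℝ} (hκ : κ < 0) (h : PQR κ p q r) (hp : ∀ t, 0 ≤ p t)
    (hr : ∀ t, 0 ≤ r t) (hp0 : 0 < p 0) : q 0 < q 1 := by
  have hm := h.mono hκ.le hp hr
  refine lt_of_le_of_ne (hm zero_le_one) fun he => ?_
  -- `q` is constant on `[0, 1]`, so its right derivative at `0` vanishes
  have h1 : ∀ t ∈ Icc (0 : ℝ) 1, q t = q 0 := fun t ht =>
    le_antisymm (he ▸ hm ht.2) (hm ht.1)
  have h2 : HasDerivWithinAt q 0 (Ici 0) 0 := by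
    have e1 : HasDerivWithinAt (fun _ : ℝ => q 0) 0 (Icc 0 1) 0 := hasDerivWithinAt_const _ _ _
    have e2 : HasDerivWithinAt q 0 (Icc 0 1) 0 :=
      e1.congr (fun t ht => h1 t ht) rfl
    exact e2.mono_of_mem_nhdsWithin (Icc_mem_nhdsGE zero_lt_one)
  have h3 := (uniqueDiffWithinAt_Ici (0 : ℝ)).eq_deriv _ (h.hq 0).hasDerivWithinAt h2
  have h4 := mul_pos (neg_pos.2 hκ) hp0
  have h5 := hr 0
  linarith

end Pool.Agent.H36.S7
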